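import Pool.Agent.Q283.FG.Stm1
import Pool.Agent.Q65.LK.Apx

/-!
# Job FG-APX (helper129, for project FG of helper283): weak approximation with signs
-/

set_option autoImplicit false

namespace Pool.Agent.Q129.FG

open NumberField IsDedekindDomain Filter Topology

section

variable {F : Type} [Field F] [NumberField F]

/-- the place of a real embedding -/
noncomputable def plc (φ : F →+* ℝ) : InfinitePlace F := InfinitePlace.mk (Complex.ofRealHom.comp φ)

theorem plc_apply (φ : F →+* ℝ) (x : F) : (plc φ).1 x = |φ x| := by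
  change ‖(Complex.ofRealHom.comp φ) x‖ = _
  simp

theorem plc_inj : Function.Injective (plc : (F →+* ℝ) → InfinitePlace F) := by
  intro φ ψ h
  have h2 : Complex.ofRealHom.comp φ = Complex.ofRealHom.comp ψ := by
    rcases InfinitePlace.mk_eq_iff.1 h with h1 | h1
    · exact h1
    · rw [← h1]
      ext x
      simp [ComplexEmbedding.conjugate_coe_eq]
  ext x
  have h3 := RingHom.congr_fun h2 x
  simpa using h3

theorem sign_of {x y : ℝ} (h : |x - y| < |y|) : 0 < x * y := by
  have h1 := sq_lt_sq.2 h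
  nlinarith [sq_nonneg x]

/-- signs -/
theorem exists_sign (c : (F →+* ℝ) → F) (hc : ∀ φ, c φ ≠ 0) :
    ∃ γ : F, γ ≠ 0 ∧ ∀ φ : F →+* ℝ, 0 < φ γ * φ (c φ) := by
  classical
  let zz : InfinitePlace F → F := Function.extend plc c fun _ => 1
  have hzz : ∀ v, zz v ≠ 0 := by
    intro v
    by_cases h : ∃ φ, plc φ = v
    · obtain ⟨φ, rfl⟩ := h
      change Function.extend plc c (fun _ => 1) (plc φ) ≠ 0
      rw [plc_inj.extend_apply]
      exact hc φ
    · change Function.extend plc c (fun _ => 1) v ≠ 0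
      rw [Function.extend_apply' _ _ _ h]
      exact one_ne_zero
  have hd := InfinitePlace.denseRange_algebraMap_pi F
  obtain ⟨γ, hγ⟩ := hd.exists_mem_open
    (s := Set.univ.pi fun v : InfinitePlace F => Metric.ball (WithAbs.toAbs v.1 (zz v)) (v.1 (zz v)))
    (isOpen_set_pi Set.finite_univ fun v _ => Metric.isOpen_ball)
    ⟨fun v => WithAbs.toAbs v.1 (zz v), fun v _ => Metric.mem_ball_self (v.1.pos (hzz v))⟩
  have hγ' : ∀ v : InfinitePlace F, v.1 (γ - zz v) < v.1 (zz v) := by
    intro v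
    have h := hγ v (Set.mem_univ v)
    rw [mem_ball_iff_norm] at h
    exact h
  refine ⟨γ, ?_, ?_⟩
  · rintro rfl
    obtain ⟨v⟩ : Nonempty (InfinitePlace F) := inferInstance
    have h := hγ' v
    rw [zero_sub, AbsoluteValue.map_neg] at h
    exact lt_irrefl _ h
  · intro φ
    have h := hγ' (plc φ)
    have h2 : zz (plc φ) = c φ := plc_inj.extend_apply _ _ _
    rw [h2, plc_apply, plc_apply, map_sub] at h
    exact sign_of h

/-- a natural number which is very divisible at finitely many places -/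
theorem exists_div (S : Finset (HeightOneSpectrum (𝓞 F))) (K : ℕ) :
    ∃ M : ℕ, 0 < M ∧ ∀ v ∈ S, v.valuation F (M : F) ≤ WithZero.exp (-(K : ℤ)) := by
  classical
  refine ⟨∏ v ∈ S, Ideal.absNorm v.asIdeal ^ K, ?_, ?_⟩
  · refine Finset.prod_pos fun v _ => pow_pos (Nat.pos_of_ne_zero ?_) _
    rw [Ne, Ideal.absNorm_eq_zero_iff]
    exact v.ne_bot
  · intro v hv
    have h1 : ((∏ v ∈ S, Ideal.absNorm v.asIdeal ^ K : ℕ) : F) =
        algebraMap (𝓞 F) F ((∏ v ∈ S, Ideal.absNorm v.asIdeal ^ K : ℕ) : 𝓞 F) := by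
      rw [map_natCast]
    rw [h1, v.valuation_of_algebraMap, v.intValuation_le_pow_iff_mem]
    rw [← Finset.mul_prod_erase S _ hv, Nat.cast_mul, Nat.cast_pow]
    exact Ideal.mul_mem_right _ _ (Ideal.pow_mem_pow (Ideal.absNorm_mem _) K)

theorem val_nat (v : HeightOneSpectrum (𝓞 F)) (n : ℕ) : v.valuation F (n : F) ≤ 1 := by
  have h1 : (n : F) = algebraMap (𝓞 F) F (n : 𝓞 F) := by rw [map_natCast]
  rw [h1]
  exact v.valuation_le_one _

end

theorem apx : Pool.Agent.Q283.FG.S_APX := by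
  intro F _ _ S k b c hb hc
  classical
  obtain ⟨γ, hγ0, hγ⟩ := exists_sign c hc
  choose m hm using fun v => Pool.Agent.Q65.LK.val_exp v (b v) (hb v)
  choose g hg using fun v : HeightOneSpectrum (𝓞 F) => Pool.Agent.Q65.LK.val_exp v γ hγ0
  let K : ℕ := k + 1 + ∑ v ∈ S, ((m v).natAbs + (g v).natAbs)
  have hK : ∀ v ∈ S, (k : ℤ) + 1 + |m v| + |g v| ≤ K := by
    intro v hv
    have h := Finset.single_le_sum (f := fun v => (m v).natAbs + (g v).natAbs)
      (fun _ _ => Nat.zero_le _) hv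
    simp only [K]
    push_cast
    have h2 : (((m v).natAbs + (g v).natAbs : ℕ) : ℤ) ≤
        ((∑ v ∈ S, ((m v).natAbs + (g v).natAbs) : ℕ) : ℤ) := by exact_mod_cast h
    push_cast at h2
    linarith
  obtain ⟨x0, hx0⟩ := Pool.Agent.Q65.LK.approxA S b K
  obtain ⟨M, hM0, hM⟩ := exists_div S K
  have hev1 : ∀ᶠ n : ℕ in atTop, x0 + n * (M * γ) ≠ 0 := by
    have hMγ : (M : F) * γ ≠ 0 := mul_ne_zero (by exact_mod_cast hM0.ne') hγ0
    by_cases h : ∃ n0 : ℕ, x0 + n0 * (M * γ) = 0
    · obtain ⟨n0, hn0⟩ := h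
      filter_upwards [eventually_gt_atTop n0] with n hn h1
      have h2 : ((n : F) - n0) * (M * γ) = 0 := by linear_combination h1 - hn0
      rcases mul_eq_zero.1 h2 with h3 | h3
      · have h4 : (n : F) = n0 := sub_eq_zero.1 h3
        exact hn.ne' (by exact_mod_cast h4)
      · exact hMγ h3
    · push Not at h
      exact Eventually.of_forall h
  have hev2 : ∀ φ : F →+* ℝ, ∀ᶠ n : ℕ in atTop, 0 < φ ((x0 + n * (M * γ)) * c φ) := by
    intro φ
    have hpos : 0 < (M : ℝ) * (φ γ * φ (c φ)) := mul_pos (by exact_mod_cast hM0) (hγ φ)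
    have h1 : Tendsto (fun n : ℕ => φ x0 * φ (c φ) + (n : ℝ) * ((M : ℝ) * (φ γ * φ (c φ)))) atTop atTop :=
      tendsto_atTop_add_const_left _ _ (tendsto_natCast_atTop_atTop.atTop_mul_const hpos)
    filter_upwards [h1.eventually_gt_atTop 0] with n hn
    have h2 : φ ((x0 + n * (M * γ)) * c φ) = φ x0 * φ (c φ) + (n : ℝ) * ((M : ℝ) * (φ γ * φ (c φ))) := by
      simp only [map_mul, map_add, map_natCast]
      ring
    rw [h2]
    exact hn
  obtain ⟨n, hn1, hn2⟩ := (hev1.and (eventually_all.2 hev2)).exists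
  refine ⟨x0 + n * (M * γ), hn1, ?_, hn2⟩
  intro v hv
  have h3 : (x0 + n * (M * γ)) / b v - 1 = ((x0 - b v) + n * (M * γ)) / b v := by
    have := hb v
    field_simp
    ring
  rw [h3, map_div₀, hm v]
  have h4 : v.valuation F ((x0 - b v) + n * (M * γ)) ≤ WithZero.exp (-(K : ℤ) + |g v|) := by
    refine (Valuation.map_add _ _ _).trans (max_le ?_ ?_)
    · refine (hx0 v hv).trans ?_
      rw [WithZero.exp_le_exp]
      linarith [abs_nonneg (g v)]
    · rw [map_mul, map_mul, hg v]
      calc v.valuation F (n : F) * (v.valuation F (M : F) * WithZero.exp (g v))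
          ≤ 1 * (WithZero.exp (-(K : ℤ)) * WithZero.exp (g v)) :=
            mul_le_mul' (val_nat v n) (mul_le_mul' (hM v hv) le_rfl)
        _ = WithZero.exp (-(K : ℤ) + g v) := by rw [one_mul, WithZero.exp_add]
        _ ≤ _ := by
            rw [WithZero.exp_le_exp]
            linarith [le_abs_self (g v)]
  refine lt_of_le_of_lt (div_le_div_of_nonneg_right h4 zero_le) ?_
  rw [← WithZero.exp_sub, WithZero.exp_lt_exp]
  have h5 := hK v hv
  have h6 := neg_abs_le (m v)
  linarith

end Pool.Agent.Q129.FG
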