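import Pool.Agent.Q283.FG.Stm3
import Pool.Agent.Q192.FT.ISQ

/-!
# Job FG-ISQ (helper129, for project FG of helper283): the quadratic relation for the local classes, with the signs
-/

set_option autoImplicit false

namespace Pool.Agent.Q129.FG

open NumberField IsDedekindDomain WeierstrassCurve
open Pool.Agent.Q283.FG Pool.Agent.Q7.LK Pool.Agent.Y682
open Pool.Agent.Q283.FT (crv Rt df Cov AX)
open Pool.Agent.TH841.SH.D (Pt)
open Pool.Agent.Q192.FT (df_ne' exists_near)

/-- the quadratic relation for the local classes -/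
theorem isq (_hKUA : Pool.Agent.Q283.FG.S_KUA) (hAXP : Pool.Agent.Q283.FG.S_AXP) (hSTB : Pool.Agent.Q283.FG.S_STB)
    (_hBAS : Pool.Agent.Q7.LK.S_BAS) (hCPL : Pool.Agent.Q7.LK.S_CPL) : Pool.Agent.Q283.FG.S_ISQ := by
  intro F _ _ ζ hζ t s₀ ht e he v a b hab
  have : Fact (Nat.Prime 2) := ⟨Nat.prime_two⟩
  obtain ⟨ha, hb, hcov⟩ := hab
  obtain ⟨P, hP⟩ := (hAXP F e he (v.adicCompletion F) a b ha hb).1 hcov
  obtain ⟨hAA, hST⟩ := hSTB F ζ hζ t s₀ ht v
  have two : (2 : ZMod 2) = 0 := Pool.Agent.Q192.FT.two0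
  have hM : (-1 : F) ≠ 0 := neg_ne_zero.2 one_ne_zero
  have hsym : ∀ A B : F, A ≠ 0 → B ≠ 0 → t v A B = t v B A := fun A B hA hB => ht.sym v A B hA hB
  have hml : ∀ A B C : F, A ≠ 0 → B ≠ 0 → C ≠ 0 → t v (A * B) C = t v A C + t v B C :=
    fun A B C hA hB hC => ht.mul v A B C hA hB hC
  have hmr : ∀ A B C : F, A ≠ 0 → B ≠ 0 → C ≠ 0 → t v A (B * C) = t v A B + t v A C := by
    intro A B C hA hB hC
    rw [hsym A _ hA (mul_ne_zero hB hC), hml _ _ _ hB hC hA, hsym B A hB hA, hsym C A hC hA]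
  have hR : ∀ A B : F, A ≠ 0 → B ≠ 0 → Lpw 2 v (A * B) → ∀ C, C ≠ 0 → t v A C = t v B C := by
    intro A B hA hB h C hC
    have h1 := hml A B C hA hB hC
    rw [ht.pow v (A * B) C h hC] at h1
    linear_combination -h1 - t v B C * two
  have hL : ∀ A : F, A ≠ 0 → (∃ s : v.adicCompletion F, algebraMap F (v.adicCompletion F) A = s ^ 2) → Lpw 2 v A :=
    fun A hA h => (hCPL 2 F v A).2 ⟨hA, h⟩
  have d0 := df_ne' he 0
  have d1 := df_ne' he 1
  have d2 := df_ne' he 2
  have d02 : -(df e 0 * df e 2) = -1 * (df e 0 * df e 2) := by ring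
  -- the class of `a` is that of `A`
  have key : ∀ A B : F, A ≠ 0 → B ≠ 0 → Lpw 2 v (a * A) → Lpw 2 v (b * B) →
      t v A B + t v A (-1) + t v A (df e 0) + t v A (df e 2) + t v B (df e 1) + t v B (df e 2) = 0 →
      t v a b + t v a (-(df e 0 * df e 2)) + t v b (df e 1 * df e 2) = 0 := by
    intro A B hA hB h1 h2 h3
    rw [d02, hmr a _ _ ha hM (mul_ne_zero d0 d2), hmr a _ _ ha d0 d2, hmr b _ _ hb d1 d2, hR a A ha hA h1 b hb,
      hR a A ha hA h1 _ d0, hR a A ha hA h1 _ d2, hR a A ha hA h1 _ hM,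
      hR b B hb hB h2 _ d1, hR b B hb hB h2 _ d2, hsym A b hA hb, hR b B hb hB h2 A hA, hsym B A hB hA]
    linear_combination h3
  have e0 : df e 0 = e 1 - e 2 := rfl
  have e1 : df e 1 = e 0 - e 2 := rfl
  have e2 : df e 2 = e 0 - e 1 := rfl
  have hst3 : t v (df e 2) (df e 0) = t v (df e 2) (df e 1) + t v (df e 0) (df e 1) + t v (df e 1) (-1) :=
    hST _ _ _ d2 d0 d1 (by rw [e0, e1, e2]; ring)
  obtain ⟨-, -, hP⟩ := hP
  rcases hP with ⟨-, ⟨s, hs⟩, ⟨s', hs'⟩⟩ | ⟨x, y, h, -, h1, h2⟩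
  · have la : Lpw 2 v a := hL a ha ⟨s, by rw [hs]; ring⟩
    have lb : Lpw 2 v b := hL b hb ⟨s', by rw [hs']; ring⟩
    rw [ht.pow v a _ la hb, ht.pow v a _ la (neg_ne_zero.2 (mul_ne_zero d0 d2)), ht.pow v b _ lb (mul_ne_zero d1 d2)]
    ring
  · have hxy : y ^ 2 = (x - algebraMap F (v.adicCompletion F) (e 0)) * (x - algebraMap F (v.adicCompletion F) (e 1)) *
        (x - algebraMap F (v.adicCompletion F) (e 2)) := by
      have h3 := (Affine.equation_iff _ _).1 h.1
      have h4 : algebraMap F (v.adicCompletion F) (e 2) =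
          -algebraMap F (v.adicCompletion F) (e 0) - algebraMap F (v.adicCompletion F) (e 1) := by
        rw [← map_neg, ← map_sub]
        congr 1
        linear_combination he.sum
      simp [crv, Pool.Agent.Q283.EN.sh] at h3
      rw [h4] at h3 ⊢
      linear_combination h3
    by_cases hx0 : x = algebraMap F (v.adicCompletion F) (e 0)
    · -- the point `(e 0, 0)`
      have h3 : IsSquare (algebraMap F (v.adicCompletion F) a * algebraMap F (v.adicCompletion F) (df e 1 * df e 2)) := by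
        rcases h1 with h1 | h1
        · exact absurd hx0 h1.1
        · exact h1.2
      have h4 : IsSquare (algebraMap F (v.adicCompletion F) b * algebraMap F (v.adicCompletion F) (df e 2)) := by
        rcases h2 with h2 | h2
        · have := h2.2
          rw [hx0, ← map_sub] at this
          exact this
        · exfalso
          have := h2.1
          rw [hx0] at this
          exact d2 (by rw [e2, (algebraMap F (v.adicCompletion F)).injective this, sub_self])
      obtain ⟨s, hs⟩ := h3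
      obtain ⟨s', hs'⟩ := h4
      refine key _ _ (mul_ne_zero d1 d2) d2 (hL _ (mul_ne_zero ha (mul_ne_zero d1 d2)) ⟨s, by rw [map_mul, hs]; ring⟩)
        (hL _ (mul_ne_zero hb d2) ⟨s', by rw [map_mul, hs']; ring⟩) ?_
      rw [hml _ _ _ d1 d2 d2, hml _ _ _ d1 d2 d0, hml _ _ _ d1 d2 hM, hsym _ _ d1 d0, hst3, hAA _ d2]
      linear_combination (t v (df e 1) (df e 2) + t v (df e 0) (df e 1) + t v (df e 2) (df e 1) + 2 * t v (df e 2) (-1)
        + t v (df e 1) (-1)) * two
    have h3 : IsSquare (algebraMap F (v.adicCompletion F) a * (x - algebraMap F (v.adicCompletion F) (e 0))) := by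
      rcases h1 with h1 | h1
      · exact h1.2
      · exact absurd h1.1 hx0
    obtain ⟨s, hs⟩ := h3
    by_cases hx1 : x = algebraMap F (v.adicCompletion F) (e 1)
    · -- the point `(e 1, 0)`
      have h4 : IsSquare (algebraMap F (v.adicCompletion F) b *
          algebraMap F (v.adicCompletion F) (-(df e 0 * df e 2))) := by
        rcases h2 with h2 | h2
        · exact absurd hx1 h2.1
        · exact h2.2
      obtain ⟨s', hs'⟩ := h4
      have n1 := mul_ne_zero hM d2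
      have n2 := mul_ne_zero hM (mul_ne_zero d0 d2)
      refine key _ _ n1 n2 (hL _ (mul_ne_zero ha n1) ⟨s, ?_⟩) (hL _ (mul_ne_zero hb n2) ⟨s', ?_⟩) ?_
      · rw [hx1, ← map_sub] at hs
        rw [map_mul, ← sq] at *
        rw [← hs]
        congr 2
        rw [e2]
        ring
      · rw [map_mul, ← d02, hs']
        ring
      rw [hmr _ _ _ n1 hM (mul_ne_zero d0 d2), hmr _ _ _ n1 d0 d2, hml _ _ _ hM (mul_ne_zero d0 d2) d1,
        hml _ _ _ hM (mul_ne_zero d0 d2) d2, hml _ _ _ d0 d2 d1, hml _ _ _ d0 d2 d2, hsym _ _ hM d1, hsym _ _ hM d2,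
        hAA _ d2, hsym _ _ d0 d2, hst3]
      linear_combination (t v (-1 * df e 2) (-1) + t v (-1 * df e 2) (df e 0) + t v (-1 * df e 2) (df e 2)
        + t v (df e 0) (df e 1) + t v (df e 2) (df e 1) + t v (df e 1) (-1) + t v (df e 2) (-1)) * two
    have h4 : IsSquare (algebraMap F (v.adicCompletion F) b * (x - algebraMap F (v.adicCompletion F) (e 1))) := by
      rcases h2 with h2 | h2
      · exact h2.2
      · exact absurd h2.1 hx1
    obtain ⟨s', hs'⟩ := h4
    by_cases hx2 : x = algebraMap F (v.adicCompletion F) (e 2)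
    · -- the point `(e 2, 0)`
      have n1 := mul_ne_zero hM d1
      have n2 := mul_ne_zero hM d0
      refine key _ _ n1 n2 (hL _ (mul_ne_zero ha n1) ⟨s, ?_⟩) (hL _ (mul_ne_zero hb n2) ⟨s', ?_⟩) ?_
      · rw [hx2] at hs
        rw [map_mul, map_mul, map_neg, map_one, e1, map_sub]
        linear_combination hs
      · rw [hx2] at hs'
        rw [map_mul, map_mul, map_neg, map_one, e0, map_sub]
        linear_combination hs'
      rw [hmr _ _ _ n1 hM d0, hml _ _ _ hM d1 d2, hml _ _ _ hM d0 d1, hml _ _ _ hM d0 d2, hsym _ _ hM d1,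
        hsym _ _ d1 d2, hsym _ _ d0 d2, hst3]
      linear_combination (t v (-1 * df e 1) (-1) + t v (-1 * df e 1) (df e 0) + t v (-1) (df e 2)
        + t v (df e 2) (df e 1) + t v (df e 1) (-1) + t v (df e 0) (df e 1)) * two
    -- the other points
    obtain ⟨x₀, hx₀⟩ := exists_near v x e (fun j => by
      fin_cases j
      · exact hx0
      · exact hx1
      · exact hx2)
    obtain ⟨n0, r0, hr0⟩ := hx₀ 0
    obtain ⟨n1, r1, hr1⟩ := hx₀ 1
    obtain ⟨n2, r2, hr2⟩ := hx₀ 2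
    have g0 : Lpw 2 v (a * (x₀ - e 0)) := hL _ (mul_ne_zero ha n0) ⟨s * r0, by
      rw [map_mul, hr0]
      linear_combination r0 ^ 2 * hs⟩
    have g1 : Lpw 2 v (b * (x₀ - e 1)) := hL _ (mul_ne_zero hb n1) ⟨s' * r1, by
      rw [map_mul, hr1]
      linear_combination r1 ^ 2 * hs'⟩
    have g2 : Lpw 2 v ((x₀ - e 0) * (x₀ - e 1) * (x₀ - e 2)) :=
      hL _ (mul_ne_zero (mul_ne_zero n0 n1) n2) ⟨y * r0 * r1 * r2, by
      rw [map_mul, map_mul, hr0, hr1, hr2]
      linear_combination -(r0 * r1 * r2) ^ 2 * hxy⟩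
    have q : ∀ X : F, X ≠ 0 → t v (x₀ - e 2) X = t v (x₀ - e 0) X + t v (x₀ - e 1) X := by
      intro X hX
      rw [← hR _ _ (mul_ne_zero n0 n1) n2 g2 X hX, hml _ _ _ n0 n1 hX]
    refine key _ _ n0 n1 g0 g1 ?_
    have k1 := hST _ _ _ n0 d2 n1 (by rw [e2]; ring)
    have k2 := hST _ _ _ n1 d0 n2 (by rw [e0]; ring)
    have k3 := hST _ _ _ n0 d1 n2 (by rw [e1]; ring)
    rw [hsym _ _ n1 n2, hsym _ _ d0 n2, q _ n1, q _ d0, q _ hM, hAA _ n1] at k2
    rw [hsym _ _ n0 n2, hsym _ _ d1 n2, q _ n0, q _ d1, q _ hM, hAA _ n0, hsym _ _ n1 n0] at k3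
    rw [hsym _ _ d2 n1] at k1
    linear_combination k1 - k2 - k3 + (t v (x₀ - e 1) (df e 2) - t v (x₀ - e 1) (-1) - t v (x₀ - e 0) (-1)) * two

end Pool.Agent.Q129.FG
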